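import Mathlib

set_option autoImplicit false
set_option linter.unusedSectionVars false

open Finset SimpleGraph

namespace H380Z.Moore

variable {V : Type} [Fintype V] [DecidableEq V] (G : SimpleGraph V) [DecidableRel G.Adj]

/-- endpoints of non-backtracking walks continuing the dart `u → v` by `r` steps -/
def E : ℕ → V → V → Finset V
  | 0, _, v => {v}
  | r + 1, u, v => ((G.neighborFinset v).erase u).biUnion (fun w => E r v w)

variable {G}

lemma short {g : ℕ} (hg : (g : ℕ∞) ≤ G.egirth) {u v : V} {p q : G.Walk u v} (hp : p.IsPath)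
    (hq : q.IsPath) (h : p ≠ q) : g ≤ p.length + q.length := by
  obtain ⟨w, -, -, c, hc, hl⟩ := hp.exists_isCycle_length_le_add_of_ne hq h
  have := le_egirth.mp hg w c hc
  have h2 : g ≤ c.length := by exact_mod_cast this
  omega

lemma exists_path {g : ℕ} (hg : (g : ℕ∞) ≤ G.egirth) :
    ∀ (r : ℕ), r + 1 < g → ∀ (u v : V) (h : G.Adj u v) (x : V), x ∈ E G r u v →
      ∃ p : G.Walk v x, p.length = r ∧ (Walk.cons h p).IsPath := by
  intro r
  induction r with
  | zero =>
    intro _ u v h x hx
    simp only [E, mem_singleton] at hx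
    subst hx
    refine ⟨Walk.nil, rfl, ?_⟩
    simp [h.ne]
  | succ r ih =>
    intro hr u v h x hx
    simp only [E, mem_biUnion, mem_erase, mem_neighborFinset] at hx
    obtain ⟨w, ⟨hwu, hvw⟩, hx⟩ := hx
    obtain ⟨p, hl, hp⟩ := ih (by omega) v w hvw x hx
    refine ⟨Walk.cons hvw p, by simp [hl], ?_⟩
    rw [Walk.cons_isPath_iff]
    refine ⟨hp, fun hu => ?_⟩
    have h1 : ((Walk.cons hvw p).takeUntil u hu).IsPath := hp.takeUntil hu
    have h2 : (Walk.cons h.symm Walk.nil : G.Walk v u).IsPath := by simp [h.ne.symm]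
    have hne : (Walk.cons hvw p).takeUntil u hu ≠ Walk.cons h.symm Walk.nil := by
      intro he
      have h3 := Walk.snd_takeUntil h.ne (Walk.cons hvw p) hu
      rw [he] at h3
      simp at h3
      exact hwu h3.symm
    have h4 := short hg h1 h2 hne
    have h5 := Walk.length_takeUntil_le_length (Walk.cons hvw p) hu
    simp [hl] at h4 h5
    omega

lemma card_E {g : ℕ} (hg : (g : ℕ∞) ≤ G.egirth) (r : ℕ) (hr : 2 * (r + 1) < g) (u v : V) :
    (E G (r + 1) u v).card = ∑ w ∈ (G.neighborFinset v).erase u, (E G r v w).card := by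
  simp only [E]
  apply card_biUnion
  intro w hw w' hw' hne
  simp only [coe_erase, Set.mem_sdiff, mem_coe, mem_neighborFinset] at hw hw'
  rw [Function.onFun, Finset.disjoint_left]
  intro x hx hx'
  obtain ⟨p, hl, hp⟩ := exists_path hg r (by omega) v w hw.1 x hx
  obtain ⟨p', hl', hp'⟩ := exists_path hg r (by omega) v w' hw'.1 x hx'
  have hne' : Walk.cons hw.1 p ≠ Walk.cons hw'.1 p' := by
    intro he
    have := congrArg Walk.snd he
    simp at this
    exact hne this
  have := short hg hp hp' hne'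
  simp [hl, hl'] at this
  omega

lemma E_nonempty (hd : ∀ v, 2 ≤ G.degree v) : ∀ (r : ℕ) (u v : V), (E G r u v).Nonempty := by
  intro r
  induction r with
  | zero => intro u v; simp [E]
  | succ r ih =>
    intro u v
    have h1 : ((G.neighborFinset v).erase u).Nonempty := by
      rw [← card_pos]
      have := hd v
      rw [← card_neighborFinset_eq_degree] at this
      have h2 := pred_card_le_card_erase (s := G.neighborFinset v) (a := u)
      omega
    obtain ⟨w, hw⟩ := h1
    obtain ⟨x, hx⟩ := ih v w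
    exact ⟨x, by simp only [E, mem_biUnion]; exact ⟨w, hw, hx⟩⟩

lemma gibbs {ι : Type} (s : Finset ι) (t N : ι → ℝ) (π : ℝ) (ht : ∀ i ∈ s, 0 < t i)
    (hN : ∀ i ∈ s, 0 < N i) (hπ : ∑ i ∈ s, t i = π) (hπ0 : 0 < π) :
    ∑ i ∈ s, t i * Real.log (N i) + ∑ i ∈ s, t i * Real.log (π / t i)
      ≤ π * Real.log (∑ i ∈ s, N i) := by
  have hs : s.Nonempty := by
    rcases s.eq_empty_or_nonempty with h | h
    · subst h; simp at hπ; linarith
    · exact h
  have hS : 0 < ∑ i ∈ s, N i := sum_pos hN hs
  set S := ∑ i ∈ s, N i with hSd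
  have key : ∀ i ∈ s, t i * Real.log (N i) + t i * Real.log (π / t i) - t i * Real.log S
      ≤ N i * π / S - t i := by
    intro i hi
    have h1 := ht i hi
    have h2 := hN i hi
    have h3 : Real.log (N i * (π / t i) / S) ≤ N i * (π / t i) / S - 1 :=
      Real.log_le_sub_one_of_pos (by positivity)
    rw [Real.log_div (by positivity) hS.ne', Real.log_mul h2.ne' (by positivity)] at h3
    have h4 := mul_le_mul_of_nonneg_left h3 h1.le
    have h5 : t i * (N i * (π / t i) / S - 1) = N i * π / S - t i := by field_simp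
    rw [h5] at h4
    linarith
  have h6 := sum_le_sum key
  rw [sum_sub_distrib, sum_add_distrib, sum_sub_distrib, ← sum_mul, hπ, ← sum_div, ← sum_mul,
    ← hSd] at h6
  have h7 : S * π / S = π := by field_simp
  linarith

lemma swap_darts (f : V → V → ℝ) :
    ∑ v, ∑ w ∈ G.neighborFinset v, f v w = ∑ v, ∑ w ∈ G.neighborFinset v, f w v := by
  have h1 : ∀ (f : V → V → ℝ), ∑ v, ∑ w ∈ G.neighborFinset v, f v w
      = ∑ v, ∑ w, if G.Adj v w then f v w else 0 := by
    intro f
    refine sum_congr rfl fun v _ => ?_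
    rw [neighborFinset_eq_filter, sum_filter]
  rw [h1, h1, sum_comm]
  refine sum_congr rfl fun v _ => sum_congr rfl fun w _ => ?_
  simp only [G.adj_comm]

lemma swap_erase (s : Finset V) (f : V → V → ℝ) :
    ∑ u ∈ s, ∑ w ∈ s.erase u, f u w = ∑ w ∈ s, ∑ u ∈ s.erase w, f u w := by
  apply sum_comm'
  intro u w
  simp only [mem_erase]
  constructor
  · rintro ⟨h1, h2, h3⟩; exact ⟨⟨h2.symm, h1⟩, h3⟩
  · rintro ⟨⟨h1, h2⟩, h3⟩; exact ⟨h2, h1.symm, h3⟩

/-- The entropy method: a symmetric edge weight `π` with symmetric positive turn weights `t`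
whose entropy is at least `h` times the total mass gives `exp (h r) ≤ |V|`. -/
theorem entropy_bound {g : ℕ} (hg : (g : ℕ∞) ≤ G.egirth) (hd : ∀ v, 2 ≤ G.degree v)
    [Nonempty V] (π : V → V → ℝ) (t : V → V → V → ℝ) (h : ℝ)
    (hπs : ∀ u v, π u v = π v u) (hπ0 : ∀ u v, 0 < π u v)
    (hts : ∀ v u w, t v u w = t v w u)
    (ht0 : ∀ v, ∀ u ∈ G.neighborFinset v, ∀ w ∈ (G.neighborFinset v).erase u, 0 < t v u w)
    (hsum : ∀ v, ∀ u ∈ G.neighborFinset v, ∑ w ∈ (G.neighborFinset v).erase u, t v u w = π v u)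
    (hent : h * ∑ v, ∑ u ∈ G.neighborFinset v, π v u ≤
      ∑ v, ∑ u ∈ G.neighborFinset v, ∑ w ∈ (G.neighborFinset v).erase u,
        t v u w * Real.log (π v u / t v u w))
    (r : ℕ) (hr : 2 * r < g) : h * r ≤ Real.log (Fintype.card V) := by
  set M := ∑ v, ∑ u ∈ G.neighborFinset v, π v u with hM
  set F := ∑ v, ∑ u ∈ G.neighborFinset v, ∑ w ∈ (G.neighborFinset v).erase u,
        t v u w * Real.log (π v u / t v u w) with hF
  let S : ℕ → ℝ := fun r => ∑ v, ∑ u ∈ G.neighborFinset v, π v u * Real.log ((E G r u v).card)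
  have hpos : ∀ r u v, (0 : ℝ) < (E G r u v).card := fun r u v => by
    exact_mod_cast (E_nonempty hd r u v).card_pos
  have step : ∀ k, 2 * (k + 1) < g → S k + F ≤ S (k + 1) := by
    intro k hk
    have h1 : S k = ∑ v, ∑ u ∈ G.neighborFinset v, ∑ w ∈ (G.neighborFinset v).erase u,
        t v u w * Real.log ((E G k v w).card) := by
      simp only [S]
      rw [swap_darts (G := G) (fun v u => π v u * Real.log ((E G k u v).card))]
      refine sum_congr rfl fun v _ => ?_
      rw [swap_erase]
      refine sum_congr rfl fun w hw => ?_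
      rw [← sum_mul, hπs w v, ← hsum v w hw]
      congr 1
      exact sum_congr rfl fun u _ => hts v w u
    rw [h1, hF, ← sum_add_distrib]
    refine sum_le_sum fun v _ => ?_
    rw [← sum_add_distrib]
    refine sum_le_sum fun u hu => ?_
    rw [card_E hg k hk u v]
    push_cast
    exact gibbs _ _ _ _ (ht0 v u hu) (fun w _ => hpos k v w) (hsum v u hu) (hπ0 v u)
  have hall : ∀ k, 2 * k < g → k * F ≤ S k := by
    intro k
    induction k with
    | zero => intro _; simp [S, E]
    | succ k ih =>
      intro hk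
      have := step k hk
      have := ih (by omega)
      push_cast
      linarith
  have hM0 : 0 < M := by
    refine sum_pos (fun v _ => sum_pos (fun u _ => hπ0 v u) ?_) univ_nonempty
    rw [← card_pos, card_neighborFinset_eq_degree]
    have := hd v
    omega
  have hup : S r ≤ M * Real.log (Fintype.card V) := by
    simp only [S]
    rw [hM, sum_mul]
    refine sum_le_sum fun v _ => ?_
    rw [sum_mul]
    refine sum_le_sum fun u _ => ?_
    refine mul_le_mul_of_nonneg_left (Real.log_le_log (hpos r u v) ?_) (hπ0 v u).le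
    exact_mod_cast card_le_univ _
  have h2 := hall r hr
  have h3 : (r : ℝ) * (h * M) ≤ r * F := mul_le_mul_of_nonneg_left hent (Nat.cast_nonneg r)
  have h4 : M * (h * r) ≤ M * Real.log (Fintype.card V) := by nlinarith
  exact le_of_mul_le_mul_left h4 hM0

end H380Z.Moore
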