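import Mathlib

set_option autoImplicit false

namespace H380Z.Moore

lemma rho_lo {ρ : ℝ} (h : ρ ^ 3 - ρ - 2 = 0) : 1.5213 < ρ := by
  by_contra hc
  push Not at hc
  have h1 : (0 : ℝ) ≤ (1.5213 - ρ) * ((ρ + 1.5213 / 2) ^ 2 + (3 * 1.5213 ^ 2 / 4 - 1)) := by
    apply mul_nonneg (by linarith)
    have : (0 : ℝ) ≤ (ρ + 1.5213 / 2) ^ 2 := sq_nonneg _
    norm_num at this ⊢
    linarith
  nlinarith

lemma rho_hi {ρ : ℝ} (h : ρ ^ 3 - ρ - 2 = 0) : ρ < 1.5214 := by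
  by_contra hc
  push Not at hc
  have h1 : (0 : ℝ) ≤ (ρ - 1.5214) * ((ρ + 1.5214 / 2) ^ 2 + (3 * 1.5214 ^ 2 / 4 - 1)) := by
    apply mul_nonneg (by linarith)
    have : (0 : ℝ) ≤ (ρ + 1.5214 / 2) ^ 2 := sq_nonneg _
    norm_num at this ⊢
    linarith
  nlinarith

/-- the weight of an edge between two vertices of degree three -/
noncomputable def aa (ρ : ℝ) : ℝ := 4 / (ρ + 2)

lemma aa_lo {ρ : ℝ} (h : ρ ^ 3 - ρ - 2 = 0) : 1.1359 < aa ρ := by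
  have := rho_lo h; have := rho_hi h
  unfold aa
  rw [lt_div_iff₀ (by linarith)]
  linarith

lemma aa_hi {ρ : ℝ} (h : ρ ^ 3 - ρ - 2 = 0) : aa ρ < 1.136 := by
  have := rho_lo h; have := rho_hi h
  unfold aa
  rw [div_lt_iff₀ (by linarith)]
  linarith

lemma log_aa {ρ : ℝ} (h : ρ ^ 3 - ρ - 2 = 0) :
    Real.log (aa ρ) = 2 * Real.log 2 - 3 * Real.log ρ := by
  have := rho_lo h
  have h1 : ρ + 2 = ρ ^ 3 := by linarith
  unfold aa
  rw [h1, Real.log_div (by norm_num) (by positivity), Real.log_pow]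
  have : (4 : ℝ) = 2 ^ 2 := by norm_num
  rw [this, Real.log_pow]
  push_cast
  ring

lemma log_one_sub {ρ : ℝ} (h : ρ ^ 3 - ρ - 2 = 0) :
    Real.log (1 - aa ρ / 2) = - 2 * Real.log ρ := by
  have := rho_lo h
  have h1 : 1 - aa ρ / 2 = (ρ ^ 2)⁻¹ := by
    unfold aa
    have h2 : ρ + 2 ≠ 0 := by linarith
    have h3 : ρ ≠ 0 := by linarith
    field_simp
    nlinarith
  rw [h1, Real.log_inv, Real.log_pow]
  push_cast
  ring

lemma logrho_hi {ρ : ℝ} (h : ρ ^ 3 - ρ - 2 = 0) :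
    5 * Real.log ρ ≤ 3 * Real.log 2 + 0.0189 := by
  have h0 := rho_lo h; have h0' := rho_hi h
  have h1 : Real.log (ρ ^ 5 / 2 ^ 3) ≤ ρ ^ 5 / 2 ^ 3 - 1 :=
    Real.log_le_sub_one_of_pos (by positivity)
  rw [Real.log_div (by positivity) (by positivity), Real.log_pow, Real.log_pow] at h1
  have h2 : ρ ^ 5 = ρ + 2 + 2 * ρ ^ 2 := by
    have : ρ ^ 5 = ρ ^ 2 * ρ ^ 3 := by ring
    have h3 : ρ ^ 3 = ρ + 2 := by linarith
    rw [this, h3]; nlinarith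
  have h3 : ρ ^ 2 < 1.5214 ^ 2 := by nlinarith
  push_cast at h1
  norm_num at h3
  linarith

lemma logrho_lo {ρ : ℝ} (h : ρ ^ 3 - ρ - 2 = 0) :
    3 * Real.log 2 ≤ 5 * Real.log ρ := by
  have h0 := rho_lo h; have h0' := rho_hi h
  have h2 : ρ ^ 5 = ρ + 2 + 2 * ρ ^ 2 := by
    have : ρ ^ 5 = ρ ^ 2 * ρ ^ 3 := by ring
    have h3 : ρ ^ 3 = ρ + 2 := by linarith
    rw [this, h3]; nlinarith
  have h3 : (2 : ℝ) ^ 3 ≤ ρ ^ 5 := by nlinarith
  have h4 := Real.log_le_log (by positivity) h3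
  rw [Real.log_pow, Real.log_pow] at h4
  push_cast at h4
  linarith

lemma log_half {ρ : ℝ} (h : ρ ^ 3 - ρ - 2 = 0) :
    Real.log (aa ρ - 1 / 2) ≤ Real.log (aa ρ) - Real.log 2 + 0.12 := by
  have h0 := aa_lo h; have h0' := aa_hi h
  have h1 : Real.log ((aa ρ - 1 / 2) * 2 / aa ρ) ≤ (aa ρ - 1 / 2) * 2 / aa ρ - 1 :=
    Real.log_le_sub_one_of_pos (by apply div_pos <;> linarith)
  rw [Real.log_div (by linarith) (by linarith), Real.log_mul (by linarith) (by norm_num)] at h1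
  have h2 : (aa ρ - 1 / 2) * 2 / aa ρ ≤ 1.12 := by
    rw [div_le_iff₀ (by linarith)]
    linarith
  linarith

/-- entropy contribution of a degree three vertex with incident weights `x y z` -/
noncomputable def F3 (x y z : ℝ) : ℝ :=
  (x + y - (x + y + z) / 2) * Real.log (x / (x + y - (x + y + z) / 2)) +
  (x + z - (x + y + z) / 2) * Real.log (x / (x + z - (x + y + z) / 2)) +
  ((y + x - (x + y + z) / 2) * Real.log (y / (y + x - (x + y + z) / 2)) +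
  (y + z - (x + y + z) / 2) * Real.log (y / (y + z - (x + y + z) / 2))) +
  ((z + x - (x + y + z) / 2) * Real.log (z / (z + x - (x + y + z) / 2)) +
  (z + y - (x + y + z) / 2) * Real.log (z / (z + y - (x + y + z) / 2)))

lemma F3_swap12 (x y z : ℝ) : F3 x y z = F3 y x z := by
  unfold F3
  have : y + x + z = x + y + z := by ring
  rw [this]; ring

lemma F3_swap23 (x y z : ℝ) : F3 x y z = F3 x z y := by
  unfold F3
  have : x + z + y = x + y + z := by ring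
  rw [this]; ring

lemma F3_xxx (x : ℝ) (hx : 0 < x) : F3 x x x = 3 * x * Real.log 2 := by
  unfold F3
  have h1 : x + x - (x + x + x) / 2 = x / 2 := by ring
  have h2 : x / (x / 2) = 2 := by field_simp
  rw [h1, h2]; ring

lemma F3_a11 {ρ : ℝ} (h : ρ ^ 3 - ρ - 2 = 0) :
    F3 (aa ρ) 1 1 = Real.log ρ * (aa ρ + 4) := by
  have h0 := aa_lo h; have h0' := aa_hi h
  unfold F3
  have h1 : aa ρ + 1 - (aa ρ + 1 + 1) / 2 = aa ρ / 2 := by ring
  have h2 : 1 + aa ρ - (aa ρ + 1 + 1) / 2 = aa ρ / 2 := by ring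
  have h3 : 1 + 1 - (aa ρ + 1 + 1) / 2 = 1 - aa ρ / 2 := by ring
  have h4 : aa ρ / (aa ρ / 2) = 2 := by
    have : aa ρ ≠ 0 := by linarith
    field_simp
  rw [h1, h2, h3, h4, one_div, one_div, Real.log_inv, Real.log_inv, log_one_sub h,
    Real.log_div (by linarith) (by norm_num), log_aa h]
  ring

lemma F3_aa1 {ρ : ℝ} (h : ρ ^ 3 - ρ - 2 = 0) :
    Real.log ρ * (2 * aa ρ + 8) ≤ F3 (aa ρ) (aa ρ) 1 + 3 * Real.log 2 := by
  have h0 := aa_lo h; have h0' := aa_hi h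
  unfold F3
  have h1 : aa ρ + 1 - (aa ρ + aa ρ + 1) / 2 = 1 / 2 := by ring
  have h2 : 1 + aa ρ - (aa ρ + aa ρ + 1) / 2 = 1 / 2 := by ring
  have h3 : aa ρ + aa ρ - (aa ρ + aa ρ + 1) / 2 = aa ρ - 1 / 2 := by ring
  have h4 : (1 : ℝ) / (1 / 2) = 2 := by norm_num
  have h5 : aa ρ / (1 / 2) = aa ρ * 2 := by ring
  rw [h1, h2, h3, h4, h5, Real.log_mul (by linarith) (by norm_num),
    Real.log_div (by linarith) (by linarith)]
  have h6 := log_half h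
  have h7 := log_aa h
  have h8 := logrho_hi h
  have h9 := Real.log_two_gt_d9
  have h9' := Real.log_two_lt_d9
  have h10 : (aa ρ - 1 / 2) * (Real.log 2 - 0.12)
      ≤ (aa ρ - 1 / 2) * (Real.log (aa ρ) - Real.log (aa ρ - 1 / 2)) :=
    mul_le_mul_of_nonneg_left (by linarith) (by linarith)
  have h11 : Real.log ρ * (2 * aa ρ + 11) ≤ (3 * Real.log 2 + 0.0189) / 5 * (2 * aa ρ + 11) :=
    mul_le_mul_of_nonneg_right (by linarith) (by linarith)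
  nlinarith

lemma F3_aaa {ρ : ℝ} (h : ρ ^ 3 - ρ - 2 = 0) :
    Real.log ρ * (3 * aa ρ + 12) ≤ F3 (aa ρ) (aa ρ) (aa ρ) + 6 * Real.log 2 := by
  have h0 := aa_lo h; have h0' := aa_hi h
  rw [F3_xxx _ (by linarith)]
  have h8 := logrho_hi h
  have h9 := Real.log_two_gt_d9
  have h9' := Real.log_two_lt_d9
  have h11 : Real.log ρ * (3 * aa ρ + 12) ≤ (3 * Real.log 2 + 0.0189) / 5 * (3 * aa ρ + 12) :=
    mul_le_mul_of_nonneg_right (by linarith) (by linarith)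
  nlinarith

/-- the vertex inequality at a degree three vertex -/
lemma vertex3 {ρ : ℝ} (h : ρ ^ 3 - ρ - 2 = 0) (x y z bx bY bz : ℝ)
    (hx : (x = aa ρ ∧ bx = 0) ∨ (x = 1 ∧ bx = 1)) (hy : (y = aa ρ ∧ bY = 0) ∨ (y = 1 ∧ bY = 1))
    (hz : (z = aa ρ ∧ bz = 0) ∨ (z = 1 ∧ bz = 1)) :
    Real.log ρ * (x + y + z) + 2 * Real.log ρ
      + (3 * Real.log 2 - 5 * Real.log ρ) * (bx + bY + bz - 2) ≤ F3 x y z := by
  have h0 := F3_aaa h
  have h1 := F3_aa1 h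
  have h2 := F3_a11 h
  have h3 := F3_xxx 1 one_pos
  have e1 := F3_swap23 (aa ρ) 1 (aa ρ)
  have e2 := F3_swap12 1 (aa ρ) (aa ρ)
  have e3 := F3_swap12 1 (aa ρ) 1
  have e4 := F3_swap23 1 1 (aa ρ)
  rcases hx with ⟨rfl, rfl⟩ | ⟨rfl, rfl⟩ <;> rcases hy with ⟨rfl, rfl⟩ | ⟨rfl, rfl⟩ <;>
    rcases hz with ⟨rfl, rfl⟩ | ⟨rfl, rfl⟩ <;> linarith

end H380Z.Moore
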