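import Pool.Agent.H380Z.Moore.Ent
import Pool.Agent.H380Z.Moore.Num

set_option autoImplicit false
set_option linter.unusedSectionVars false

open Finset SimpleGraph

namespace H380Z.Moore

variable {V : Type} [Fintype V] [DecidableEq V] (G : SimpleGraph V) [DecidableRel G.Adj]

/-- edge weights -/
noncomputable def pw (ρ : ℝ) (u v : V) : ℝ :=
  if G.degree u = 3 ∧ G.degree v = 3 then aa ρ else 1

/-- turn weights -/
noncomputable def tw (ρ : ℝ) (v u w : V) : ℝ :=
  pw G ρ v u + pw G ρ v w - (∑ z ∈ G.neighborFinset v, pw G ρ v z) / 2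

/-- indicator of degree two -/
noncomputable def bb (v : V) : ℝ := if G.degree v = 2 then 1 else 0

variable {G}

lemma pw_ge {ρ : ℝ} (h : ρ ^ 3 - ρ - 2 = 0) (u v : V) : 1 ≤ pw G ρ u v := by
  have := aa_lo h
  unfold pw
  split_ifs <;> linarith

lemma pw_le {ρ : ℝ} (h : ρ ^ 3 - ρ - 2 = 0) (u v : V) : pw G ρ u v ≤ 1.136 := by
  have := aa_hi h
  unfold pw
  split_ifs
  · linarith
  · norm_num

lemma pw_two {ρ : ℝ} {v : V} (hv : G.degree v = 2) (u : V) : pw G ρ v u = 1 := by
  unfold pw
  rw [if_neg]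
  omega

lemma tw_two {ρ : ℝ} {v : V} (hv : G.degree v = 2) (u w : V) : tw G ρ v u w = 1 := by
  unfold tw
  simp only [pw_two hv, sum_const, card_neighborFinset_eq_degree, hv]
  norm_num

lemma vertex {ρ : ℝ} (h : ρ ^ 3 - ρ - 2 = 0) (hd : ∀ v, G.degree v = 2 ∨ G.degree v = 3)
    (v : V) :
    Real.log ρ * (∑ u ∈ G.neighborFinset v, pw G ρ v u)
      + (2 * (3 * Real.log 2 - 5 * Real.log ρ) - 2 * Real.log ρ) * (2 * bb G v - 1)
      + (3 * Real.log 2 - 5 * Real.log ρ) * (∑ z ∈ G.neighborFinset v, (bb G z - bb G v))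
    ≤ ∑ u ∈ G.neighborFinset v, ∑ w ∈ (G.neighborFinset v).erase u,
        tw G ρ v u w * Real.log (pw G ρ v u / tw G ρ v u w) := by
  have hμ := logrho_lo h
  rcases hd v with hv | hv
  · have hb : bb G v = 1 := by simp [bb, hv]
    simp only [tw_two hv, pw_two hv, hb, sum_sub_distrib, sum_const,
      card_neighborFinset_eq_degree, hv]
    have h1 : 0 ≤ ∑ z ∈ G.neighborFinset v, bb G z :=
      sum_nonneg fun z _ => by unfold bb; split_ifs <;> norm_num
    simp
    nlinarith
  · have hb : bb G v = 0 := by simp [bb, hv]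
    have hc : (G.neighborFinset v).card = 3 := by rw [card_neighborFinset_eq_degree, hv]
    obtain ⟨x, y, z, hxy, hxz, hyz, hN⟩ := card_eq_three.mp hc
    have hcase : ∀ u, (pw G ρ v u = aa ρ ∧ bb G u = 0) ∨ (pw G ρ v u = 1 ∧ bb G u = 1) := by
      intro u
      rcases hd u with hu | hu
      · right; simp [pw, bb, hu]
      · left; simp [pw, bb, hu, hv]
    have key := vertex3 h _ _ _ _ _ _ (hcase x) (hcase y) (hcase z)
    have ex : ({x, y, z} : Finset V).erase x = {y, z} := by
      ext a; simp only [mem_erase, mem_insert, mem_singleton]; grind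
    have ey : ({x, y, z} : Finset V).erase y = {x, z} := by
      ext a; simp only [mem_erase, mem_insert, mem_singleton]; grind
    have ez : ({x, y, z} : Finset V).erase z = {x, y} := by
      ext a; simp only [mem_erase, mem_insert, mem_singleton]; grind
    have s3 : ∀ f : V → ℝ, ∑ a ∈ ({x, y, z} : Finset V), f a = f x + f y + f z := by
      intro f
      rw [sum_insert (by simp [hxy, hxz]), sum_pair hyz]; ring
    simp only [tw, hN, s3, ex, ey, ez, sum_pair hyz, sum_pair hxz, sum_pair hxy, hb]
    unfold F3 at key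
    linarith

theorem moore {ρ : ℝ} (h : ρ ^ 3 - ρ - 2 = 0) [Nonempty V]
    (hd : ∀ v, G.degree v = 2 ∨ G.degree v = 3)
    (hhalf : 2 * (univ.filter (fun v => G.degree v = 2)).card = Fintype.card V)
    {g : ℕ} (hg : (g : ℕ∞) ≤ G.egirth) (r : ℕ) (hr : 2 * r < g) :
    Real.log ρ * r ≤ Real.log (Fintype.card V) := by
  have hd2 : ∀ v, 2 ≤ G.degree v := fun v => by rcases hd v with h | h <;> omega
  refine entropy_bound hg hd2 (pw G ρ) (tw G ρ) (Real.log ρ) ?_ ?_ ?_ ?_ ?_ ?_ r hr
  · intro u v
    simp only [pw, and_comm]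
  · intro u v
    have := pw_ge (G := G) h u v
    linarith
  · intro v u w
    unfold tw
    ring
  · intro v u _ w _
    have h1 := pw_ge (G := G) h v u
    have h2 := pw_ge (G := G) h v w
    have h3 : ∑ z ∈ G.neighborFinset v, pw G ρ v z ≤ ∑ _z ∈ G.neighborFinset v, (1.136 : ℝ) :=
      sum_le_sum fun z _ => pw_le h v z
    rw [sum_const, card_neighborFinset_eq_degree, nsmul_eq_mul] at h3
    have h4 : (G.degree v : ℝ) ≤ 3 := by
      rcases hd v with h | h <;> rw [h] <;> norm_num
    unfold tw
    nlinarith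
  · intro v u hu
    rcases hd v with hv | hv
    · simp only [tw_two hv, pw_two hv, sum_const, card_erase_of_mem hu,
        card_neighborFinset_eq_degree, hv]
      norm_num
    · unfold tw
      rw [sum_sub_distrib, sum_add_distrib, sum_const, sum_const, card_erase_of_mem hu,
        card_neighborFinset_eq_degree, hv, sum_erase_eq_sub hu]
      simp only [nsmul_eq_mul]
      push_cast
      ring
  · have h1 := sum_le_sum (s := univ) fun v _ => vertex h hd v
    rw [sum_add_distrib, sum_add_distrib, ← mul_sum, ← mul_sum, ← mul_sum] at h1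
    have h2 : ∑ v, (2 * bb G v - 1) = 0 := by
      rw [sum_sub_distrib, ← mul_sum]
      have : ∑ v, bb G v = ((univ.filter (fun v => G.degree v = 2)).card : ℝ) := by
        simp [bb, sum_ite]
      rw [this, sum_const, card_univ, ← hhalf]
      simp
    have h3 : ∑ v, ∑ z ∈ G.neighborFinset v, (bb G z - bb G v) = 0 := by
      simp only [sum_sub_distrib]
      rw [swap_darts (G := G) (fun v z => bb G z)]
      simp
    rw [h2, h3] at h1
    linarith

end H380Z.Moore
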